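import Pool.Agent.H15.LU.Targets

/-!
# MP_812e67_ag, module SEQ: normal forms along a deformation
-/

set_option autoImplicit false

namespace Pool.Agent.H48.LU.SEQ

open Pool.Agent.H15.LU Filter Topology Asymptotics Polynomial

theorem seq (h1 : T_UNI) (h2 : T_PFT) (h3 : T_TAY) (h4 : T_NF) : T_SEQ := by
  rintro ⟨m, F, hF, h0, hd⟩ ε hε
  obtain ⟨T, hT, hTay⟩ := h3 m F hF
  -- the coefficients at zero
  have hT0 : T 0 = T₀ := by
    have ha := hTay.self_of_nhds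
    have hb : (pf (T 0 - T₀)) =O[𝓝 0] fun p => ‖p‖ ^ 10 := by
      refine (ha.neg_left).congr' ?_ EventuallyEq.rfl
      filter_upwards [h0] with p hp
      have hlin : pf (T 0 - T₀) p = pf (T 0) p - pf T₀ p := by
        unfold pf
        rw [← Finset.sum_sub_distrib]
        refine Finset.sum_congr rfl fun e _ => ?_
        rw [Pi.sub_apply, sub_mul]
      rw [hlin, h2, hp]
      ring
    exact sub_eq_zero.1 (h1 _ hb)
  obtain ⟨δ, hδ, hNF⟩ := h4 ε hε
  have hcl : ∀ᶠ t in 𝓝 (0 : Fin m → ℂ), ∀ e, ‖T t e - T₀ e‖ ≤ δ := by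
    rw [eventually_all]
    intro e
    have h5 := hT e
    rw [hT0] at h5
    have h6 := Metric.tendsto_nhds.1 h5 δ hδ
    filter_upwards [h6] with t ht
    rw [dist_eq_norm] at ht
    exact ht.le
  obtain ⟨r, hr, hball⟩ := Metric.eventually_nhds_iff.1 (hcl.and hTay)
  obtain ⟨t, -, htr, g, ⟨b, d, -, rfl⟩, φ, hφ, hφ0, hφb, hφe⟩ := hd r hr
  have ht := hball (y := t) (by simpa [dist_eq_norm] using htr)
  obtain ⟨θ, c, Q, R, ⟨hθ, hθ0, hθb⟩, hc, hQ, hR, hO⟩ := hNF (T t) ht.1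
  have hφ' : AnalyticAt ℂ φ (θ 0) := by rw [hθ0]; exact hφ
  refine ⟨c, Q, R, b, d, φ ∘ θ, hc, hQ, hR, ⟨hφ'.comp hθ, ?_, ?_⟩, ?_⟩
  · change φ (θ 0) = 0
    rw [hθ0, hφ0]
  · rw [fderiv_comp 0 hφ'.differentiableAt hθ.differentiableAt, hθ0]
    exact hφb.comp hθb
  · have hθt : Tendsto θ (𝓝 0) (𝓝 0) := by
      have := hθ.continuousAt.tendsto
      rwa [hθ0] at this
    have hθO : (fun p => ‖θ p‖ ^ 10) =O[𝓝 0] fun p : Fin 3 → ℂ => ‖p‖ ^ 10 := by
      have h7 := hθ.differentiableAt.isBigO_sub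
      simp only [hθ0, sub_zero] at h7
      exact (h7.norm_left.norm_right).pow 10
    have hA : (fun p => F (θ p, t) - pf (T t) (θ p)) =O[𝓝 0] fun p => ‖p‖ ^ 10 :=
      (ht.2.comp_tendsto hθt).trans hθO
    have hB : ∀ᶠ p in 𝓝 (0 : Fin 3 → ℂ), F (θ p, t) = G30 b d (φ (θ p)) := by
      filter_upwards [hθt.eventually hφe] with p hp
      rw [hp]
      simp only [G30, Fin.sum_univ_one]
      rfl
    refine ((hO.neg_left).add hA.neg_left).congr' ?_ EventuallyEq.rfl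
    filter_upwards [hB] with p hp
    simp only [Function.comp_apply]
    rw [← hp]
    ring

end Pool.Agent.H48.LU.SEQ
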