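import Pool.Agent.H15.LU.Targets

/-!
# MP_812e67_ag, module TYA: restriction of a multilinear form to the first factor
-/

set_option autoImplicit false

namespace Pool.Agent.H48.LU.TYA

open Pool.Agent.H15.LU Filter Topology Asymptotics Polynomial

/-- the number of indices with value `j` -/
noncomputable def cnt {k : ℕ} (s : Fin k → Fin 3) (j : Fin 3) : ℕ :=
  (Finset.univ.filter fun i => s i = j).card

lemma sum_cnt {k : ℕ} (s : Fin k → Fin 3) : ∑ j, cnt s j = k := by
  unfold cnt
  have := Finset.card_eq_sum_card_fiberwise (f := s) (s := Finset.univ) (t := Finset.univ)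
    (fun i _ => Finset.mem_univ _)
  rw [← this, Finset.card_univ, Fintype.card_fin]

lemma prod_cnt {k : ℕ} (s : Fin k → Fin 3) (p : Fin 3 → ℂ) :
    ∏ i, p (s i) = ∏ j, p j ^ cnt s j := by
  rw [← Finset.prod_fiberwise Finset.univ s (fun i => p (s i))]
  refine Finset.prod_congr rfl fun j _ => ?_
  unfold cnt
  rw [← Finset.prod_const]
  refine Finset.prod_congr rfl fun i hi => ?_
  rw [(Finset.mem_filter.1 hi).2]

theorem tya : T_TYA := by
  classical
  intro m k hk
  let v : Fin 3 → (Fin 3 → ℂ) × (Fin m → ℂ) := fun j => (Pi.single j 1, 0)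
  refine ⟨fun M e => ∑ s : Fin k → Fin 3, if cnt s = e.1 then M (fun i => v (s i)) else 0,
    ?_, ?_⟩
  · refine continuous_pi fun e => continuous_finsetSum _ fun s _ => ?_
    by_cases h : cnt s = e.1
    · simp only [h, if_true]
      exact continuous_eval_const _
    · simp only [h, if_false]
      exact continuous_const
  · intro M p
    have hp : ((p, 0) : (Fin 3 → ℂ) × (Fin m → ℂ)) = ∑ j, p j • v j := by
      have h1 : (∑ j, p j • v j).1 = p := by
        rw [Prod.fst_sum]
        funext i
        simp [v, Finset.sum_apply, Pi.single_apply]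
      have h2 : (∑ j, p j • v j).2 = 0 := by
        rw [Prod.snd_sum]
        simp [v]
      exact Prod.ext h1.symm h2.symm
    rw [hp]
    have h3 : M (fun _ => ∑ j, p j • v j)
        = ∑ s : Fin k → Fin 3, M (fun i => p (s i) • v (s i)) :=
      M.toMultilinearMap.map_sum (fun _ j => p j • v j)
    rw [h3]
    unfold pf
    simp only [Finset.sum_mul]
    rw [Finset.sum_comm]
    refine Finset.sum_congr rfl fun s _ => ?_
    have h4 : M (fun i => p (s i) • v (s i)) = (∏ i, p (s i)) • M (fun i => v (s i)) :=
      M.toMultilinearMap.map_smul_univ (fun i => p (s i)) (fun i => v (s i))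
    rw [h4, prod_cnt, smul_eq_mul]
    have hle : ∑ i, cnt s i ≤ 9 := by rw [sum_cnt]; exact hk
    rw [Finset.sum_eq_single (⟨cnt s, hle⟩ : E9)]
    · rw [if_pos rfl, mul_comm]
    · intro e _ he
      rw [if_neg, zero_mul]
      intro h
      exact he (Subtype.ext h.symm)
    · intro h
      exact absurd (Finset.mem_univ _) h

end Pool.Agent.H48.LU.TYA
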